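import Mathlib

/-!
# Coherent finite sets on `ω₁`
-/

namespace Pool.Agent.MP_82452b_an.H8

open Filter Set

theorem exists_coherent (W : Type) [LinearOrder W] [WellFoundedLT W]
    (hc : ∀ γ : W, (Set.Iio γ).Countable) :
    ∃ A : W → ℕ → Finset W, (∀ ξ n, ∀ β ∈ A ξ n, β < ξ) ∧
      (∀ β ξ, β < ξ → ∀ᶠ n in atTop, β ∈ A ξ n) ∧
      ∀ η ξ, η ≤ ξ → ∀ᶠ n in atTop, (A ξ n).filter (· < η) = A η n := by
  classical
  choose ι hι using fun γ => Set.countable_iff_exists_injOn.1 (hc γ)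
  have hfin : ∀ ξ n, {η | η < ξ ∧ ι ξ η ≤ n}.Finite := fun ξ n =>
    Finite.of_finite_image ((finite_Iic n).subset (by rintro _ ⟨η, h, rfl⟩; exact h.2))
      ((hι ξ).mono fun η h => h.1)
  obtain ⟨e, he⟩ : ∃ e : W → W → ℕ, ∀ ξ β, (Ioo β ξ).Nonempty → ∃ η ∈ Ioo β ξ,
      (∀ η' ∈ Ioo β ξ, ι ξ η ≤ ι ξ η') ∧ e ξ β = max (e η β) (ι ξ η) := by
    let F : (ξ : W) → ((η : W) → η < ξ → W → ℕ) → W → ℕ := fun ξ r β =>
      if h : (Ioo β ξ).Nonempty then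
        max (r (Function.argminOn (ι ξ) _ h) (Function.argminOn_mem (ι ξ) _ h).2 β)
          (ι ξ (Function.argminOn (ι ξ) _ h)) else 0
    refine ⟨(wellFounded_lt (α := W)).fix F, fun ξ β h => ⟨_, Function.argminOn_mem (ι ξ) _ h,
      fun η' h' => Function.argminOn_le (ι ξ) _ h', ?_⟩⟩
    rw [WellFounded.fix_eq]
    exact dif_pos h
  have h1 : ∀ ξ n, {β | β < ξ ∧ e ξ β ≤ n}.Finite := fun ξ => by
    induction ξ using WellFoundedLT.induction with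
    | ind ξ ih =>
      intro n
      have hs : {β | β < ξ ∧ ¬ (Ioo β ξ).Nonempty}.Subsingleton := fun a ha b hb => by
        rcases lt_trichotomy a b with h | h | h
        · exact absurd ⟨b, h, hb.1⟩ ha.2
        · exact h
        · exact absurd ⟨a, h, ha.1⟩ hb.2
      refine (hs.finite.union ((hfin ξ n).biUnion fun η hη => ih η hη.1 n)).subset fun β hβ => ?_
      by_cases h : (Ioo β ξ).Nonempty
      · obtain ⟨η, hη, -, h2⟩ := he ξ β h
        have h3 := hβ.2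
        rw [h2, max_le_iff] at h3
        exact Or.inr (mem_biUnion (t := fun η => {β | β < η ∧ e η β ≤ n}) ⟨hη.2, h3.2⟩
          ⟨hη.1, h3.1⟩)
      · exact Or.inl ⟨hβ.1, h⟩
  have h2 : ∀ ξ, ∀ η ≤ ξ, {β | β < η ∧ e ξ β ≠ e η β}.Finite := fun ξ => by
    induction ξ using WellFoundedLT.induction with
    | ind ξ ih =>
      intro η hη
      rcases hη.eq_or_lt with rfl | hη
      · simp
      have h3 : ∀ ζ < ξ, {β | β < η ∧ β < ζ ∧ e ζ β ≠ e η β}.Finite := fun ζ hζ => by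
        rcases le_total η ζ with h | h
        · exact (ih ζ hζ η h).subset fun β hβ => ⟨hβ.1, hβ.2.2⟩
        · exact (ih η hη ζ h).subset fun β hβ => ⟨hβ.2.1, hβ.2.2.symm⟩
      refine ((h1 η (ι ξ η)).union ((hfin ξ (ι ξ η)).biUnion fun ζ hζ => h3 ζ hζ.1)).subset
        fun β hβ => ?_
      obtain ⟨ζ, hζ, h4, h5⟩ := he ξ β ⟨η, hβ.1, hη⟩
      have h6 := h4 η ⟨hβ.1, hη⟩
      by_cases h : e ζ β = e η β
      · refine Or.inl ⟨hβ.1, not_lt.1 fun h7 => hβ.2 ?_⟩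
        rw [h5, h, max_eq_left (h6.trans h7.le)]
      · exact Or.inr (mem_biUnion (t := fun ζ => {β | β < η ∧ β < ζ ∧ e ζ β ≠ e η β})
          ⟨hζ.2, h6⟩ ⟨hβ.1, hζ.1, h⟩)
  refine ⟨fun ξ n => (h1 ξ n).toFinset, fun ξ n β h => ((Finite.mem_toFinset _).1 h).1,
    fun β ξ h => ?_, fun η ξ h => ?_⟩
  · filter_upwards [eventually_ge_atTop (e ξ β)] with n hn using (Finite.mem_toFinset _).2 ⟨h, hn⟩
  · filter_upwards [(eventually_all_finite (h2 ξ η h)).2 fun β _ =>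
      (eventually_ge_atTop (e ξ β)).and (eventually_ge_atTop (e η β))] with n hn
    ext β
    simp only [Finset.mem_filter, Finite.mem_toFinset, mem_ofPred_eq]
    by_cases h3 : e ξ β = e η β
    · exact ⟨fun h4 => ⟨h4.2, h3 ▸ h4.1.2⟩, fun h4 => ⟨⟨h4.1.trans_le h, h3 ▸ h4.2⟩, h4.1⟩⟩
    · exact ⟨fun h4 => ⟨h4.2, (hn β ⟨h4.2, h3⟩).2⟩,
        fun h4 => ⟨⟨h4.1.trans_le h, (hn β ⟨h4.1, h3⟩).1⟩, h4.1⟩⟩

end Pool.Agent.MP_82452b_an.H8
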