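import Pool.Agent.MP_82452b_an.H8.Base
import Pool.Agent.MP_755d6b_an.H98.Rigid

/-!
# Group factors and existence of the tracial ultrapower
-/

namespace Pool.Agent.MP_82452b_an.H8

open Filter Topology Pool.Agent.MP_755d6b_an.H98
open scoped InnerProductSpace

variable {H : Type} [NormedAddCommGroup H] [InnerProductSpace ℂ H] [CompleteSpace H]
  {K : Type} [NormedAddCommGroup K] [InnerProductSpace ℂ K] [CompleteSpace K]

theorem gap_LG_of_icc (G : Type) [Group G]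
    (hG : ∀ k : G, k ≠ 1 → {q | ∃ g, g⁻¹ * k * g = q}.Infinite) : Gap (LG G) (dl (1 : G)) := by
  intro x hx
  by_contra hcon
  push Not at hcon
  set d2 := ‖x (dl 1)‖ ^ 2 - ‖⟪dl 1, x (dl 1)⟫_ℂ‖ ^ 2 with hd2
  have hpos : 0 < d2 := lt_of_le_of_lt (by positivity) (hcon _ (lam_mem 1) (opNorm_lam_le 1))
  have hsq := Real.sq_sqrt hpos.le
  obtain ⟨η, hη1, hη2⟩ := exists_invariant_near (cj (G := G))
    (fun g h ξ => by rw [cj_mul, mul_apply_eq_comp]) norm_cj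
    (fun ξ => by rw [cj_one, one_apply_eq_self]) (x (dl 1)) (√d2 / 2) (fun g => by
      rw [norm_cj_hat_sub hx]
      have h1 := hcon _ (lam_mem g) (opNorm_lam_le g)
      refine (pow_le_pow_iff_left₀ (norm_nonneg _) (by positivity) two_ne_zero).1 ?_
      rw [div_pow, hsq]
      linarith)
  have h2 : η = η 1 • dl 1 := eq_smul_dl fun y hy => by
    refine apply_eq_zero_of_infinite η (hG y hy) ?_
    rintro _ ⟨g, rfl⟩
    rw [← cj_apply, hη1]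
  have h3 := norm_sub_inner_smul_sq (norm_dl (1 : G)) (x (dl 1)) (η 1)
  rw [← h2, norm_sub_rev] at h3
  have h4 := pow_le_pow_left₀ (norm_nonneg _) hη2 2
  rw [div_pow, hsq] at h4
  nlinarith [sq_nonneg ‖η 1 - ⟪dl 1, x (dl 1)⟫_ℂ‖]

theorem isStdII1_LG (G : Type) [Group G] [Infinite G]
    (hG : ∀ k : G, k ≠ 1 → {q | ∃ g, g⁻¹ * k * g = q}.Infinite) :
    IsStdII1 (LG G) (dl (1 : G)) ∧ Gap (LG G) (dl (1 : G)) :=
  ⟨⟨⟨isTV_LG.isTrace, isTV_LG.factor (gap_LG_of_icc G hG), infinite_LG⟩, (isSF_LG G).dense⟩,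
    gap_LG_of_icc G hG⟩

theorem isUltra_onto {N : VonNeumannAlgebra H} {Ω : H} {U : Ultrafilter ℕ}
    {M : VonNeumannAlgebra K} {Ω' : K} {π : BddS ℕ N →⋆ₐ[ℂ] (K →L[ℂ] K)}
    (hu : IsUltra N Ω U M Ω' π) (hU : (U : Filter ℕ) ≤ atTop) {T : K →L[ℂ] K} (hT : T ∈ M) :
    ∃ x, π x = T := by
  classical
  have hpos : ∀ m : ℕ, (0 : ℝ) < 1 / ((m : ℝ) + 1) := fun m => Nat.one_div_pos_of_nat
  choose b hb1 hb2 using fun k : ℕ => hu.kaplansky hT (C := ‖T‖ + 1) (by positivity)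
    (by linarith) (hpos k)
  let P : ℕ → ℕ → Prop := fun i k => ∀ j ≤ k, ‖(b j - b k).1 i Ω‖ ≤ 3 * (1 / ((j : ℝ) + 1))
  have hP : ∀ k, ∀ᶠ i in U, P i k := fun k => by
    refine (eventually_all_finite (Set.finite_Iic k)).2 fun j hj => ?_
    refine (hu.norm (b j - b k)).eventually (ge_mem_nhds ?_)
    have h1 : π (b j - b k) Ω' = (T - π (b k)) Ω' - (T - π (b j)) Ω' := by
      rw [map_sub, ← sub_apply]; congr 1; abel
    have h2 : 1 / ((k : ℝ) + 1) ≤ 1 / ((j : ℝ) + 1) := Nat.one_div_le_one_div hj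
    rw [h1]
    linarith [norm_sub_le ((T - π (b k)) Ω') ((T - π (b j)) Ω'), hb2 j, hb2 k, hpos j]
  let x : BddS ℕ N := ⟨fun i => (b (Nat.findGreatest (P i) i)).1 i, fun i => (b _).2.1 i, _,
    fun i => hb1 _ i⟩
  refine ⟨x, (sub_eq_zero.1 (hu.tv.sep _ (sub_mem hT (hu.mem x))
    (norm_eq_zero.1 (le_antisymm ?_ (norm_nonneg _))))).symm⟩
  have h1 := tendsto_one_div_add_atTop_nhds_zero_nat (𝕜 := ℝ).const_mul 4
  rw [mul_zero] at h1
  refine ge_of_tendsto' h1 fun j => ?_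
  have h2 : ‖π (b j - x) Ω'‖ ≤ 3 * (1 / ((j : ℝ) + 1)) := by
    refine le_of_tendsto (hu.norm _) ?_
    filter_upwards [hP j, hU (eventually_ge_atTop j)] with i hi hj
    exact Nat.findGreatest_spec (P := P i) hj hi j (Nat.le_findGreatest hj hi)
  have h3 : (T - π x) Ω' = (T - π (b j)) Ω' + π (b j - x) Ω' := by
    rw [map_sub, ← add_apply]; congr 1; abel
  rw [h3]
  linarith [norm_add_le ((T - π (b j)) Ω') (π (b j - x) Ω'), hb2 j]

theorem exists_ultrapower {M : VonNeumannAlgebra H} {Ω : H} (hM : IsStdII1 M Ω) (hg : Gap M Ω)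
    (U : Ultrafilter ℕ) (hU : (U : Filter ℕ) ≤ cofinite) :
    ∃ (K : Type) (_ : NormedAddCommGroup K) (_ : InnerProductSpace ℂ K) (_ : CompleteSpace K)
      (L : VonNeumannAlgebra K) (Ψ : K) (π : BddSeq M →⋆ₐ[ℂ] (K →L[ℂ] K)),
      IsUltrapower M Ω U L Ψ π := by
  obtain ⟨K, _, _, _, L, Ψ, π, hu⟩ := exists_isUltra hM.isSF.tv U
  refine ⟨K, _, _, ‹_›, L, Ψ, π, ⟨⟨hu.tv.isTrace, hu.factor hg, hu.infinite hM.isSF.tv
    hM.ii1.infinite⟩, hu.dense.mono ?_⟩, fun y => ⟨isUltra_onto hu (hU.trans_eq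
      Nat.cofinite_eq_atTop), ?_⟩, hu.trace⟩
  · rintro _ ⟨a, rfl⟩
    exact ⟨_, hu.mem a, rfl⟩
  · rintro ⟨a, rfl⟩
    exact hu.mem a

end Pool.Agent.MP_82452b_an.H8
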